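import Pool.Agent.helper21.OD.SpecA

/-!
# MP_2e0e07_nt, project OD: row TST (`T_ℓ` preserves the modular symbols of level one)
-/

set_option autoImplicit false

namespace Pool.Agent.OD

open MvPolynomial Matrix

/-- the matrices of `T_ℓ` -/
def TST_m (t : ℤ) (ℓ : ℕ) (i : Option (Fin ℓ × Fin ℓ)) : Mat t :=
  !![1, 0; 0, ((ℓ : ℕ) : Oz t)] * gI t i

/-- the term of a matrix -/
noncomputable def TST_T {t : ℤ} {A : Type} [CommRing A] (f : Oz t →+* A) (φ : Sy t A) (M : Mat t) :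
    Sy t A := fun u v => act f M.adjugate (φ (M *ᵥ u) (M *ᵥ v))

theorem TST_some (t : ℤ) {ℓ : ℕ} (x : Fin ℓ × Fin ℓ) :
    TST_m t ℓ (some x) = !![1, rep t x; 0, ((ℓ : ℕ) : Oz t)] := by
  unfold TST_m gI
  rw [Matrix.mul_fin_two]
  simp

theorem TST_none (t : ℤ) (ℓ : ℕ) :
    TST_m t ℓ none = !![0, -1; 1, 0] * !![((ℓ : ℕ) : Oz t), 0; 0, 1] := by
  unfold TST_m gI
  rw [Matrix.mul_fin_two, Matrix.mul_fin_two]
  simp

theorem TST_det (t : ℤ) (ℓ : ℕ) (i : Option (Fin ℓ × Fin ℓ)) :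
    (TST_m t ℓ i).det = ((ℓ : ℕ) : Oz t) := by
  unfold TST_m
  rw [Matrix.det_mul]
  rcases i with _ | x
  · unfold gI
    rw [Matrix.det_fin_two_of, Matrix.det_fin_two_of]
    ring
  · unfold gI
    rw [Matrix.det_fin_two_of, Matrix.det_fin_two_of]
    ring

theorem TST_tor (t : ℤ) {ℓ : ℕ} (hℓ : ℓ ≠ 0) (z : Oz t) (h : ((ℓ : ℕ) : Oz t) * z = 0) :
    z = 0 := by
  have h1 : ((ℓ : ℕ) : Oz t) * z = (ℓ : ℕ) • z := by rw [nsmul_eq_mul]
  rw [h1] at h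
  have hr := congrArg QuadraticAlgebra.re h
  have hi := congrArg QuadraticAlgebra.im h
  have hl : (ℓ : ℤ) ≠ 0 := by exact_mod_cast hℓ
  simp at hr hi
  ext
  · rcases hr with hr | hr
    · exact absurd hr hℓ
    · exact hr
  · rcases hi with hi | hi
    · exact absurd hi hℓ
    · exact hi

theorem TST_ne (t : ℤ) {ℓ : ℕ} (hℓ : ℓ ≠ 0) (i : Option (Fin ℓ × Fin ℓ)) (u : Vec t)
    (hu : u ≠ 0) : TST_m t ℓ i *ᵥ u ≠ 0 := by
  intro h
  apply hu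
  have h1 : (TST_m t ℓ i).adjugate *ᵥ (TST_m t ℓ i *ᵥ u) = 0 := by
    rw [h, Matrix.mulVec_zero]
  rw [Matrix.mulVec_mulVec, Matrix.adjugate_mul, TST_det, Matrix.smul_mulVec,
    Matrix.one_mulVec] at h1
  funext l
  have h2 := congrFun h1 l
  exact TST_tor t hℓ _ h2

/-- `w` as an element of `GL₂` -/
def TST_w (t : ℤ) : GO t where
  val := !![0, -1; 1, 0]
  inv := !![0, 1; -1, 0]
  val_inv := by
    rw [Matrix.mul_fin_two, Matrix.one_fin_two]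
    simp
  inv_val := by
    rw [Matrix.mul_fin_two, Matrix.one_fin_two]
    simp

theorem TST_sum (hTR1 : TR1_stmt) (t : ℤ) (ht : t = 0 ∨ t = 1) (ℓ : ℕ) {A : Type} [CommRing A]
    (f : Oz t →+* A) (k : ℕ) (φ : Sy t A) (hφ : IsSym f k 1 (fun _ => 1) φ) (u v : Vec t) :
    opT f ℓ φ u v = ∑ i : Option (Fin ℓ × Fin ℓ), TST_T f φ (TST_m t ℓ i) u v := by
  rw [Fintype.sum_option]
  have h1 := hTR1 t ht f k 1 (fun _ => 1) φ hφ !![((ℓ : ℕ) : Oz t), 0; 0, 1] (TST_w t)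
    (by rw [Nat.cast_one]; exact one_dvd _) u v
  have h2 : TST_T f φ (TST_m t ℓ none) u v =
      act f !![1, 0; 0, ((ℓ : ℕ) : Oz t)]
        (φ (!![((ℓ : ℕ) : Oz t), 0; 0, 1] *ᵥ u) (!![((ℓ : ℕ) : Oz t), 0; 0, 1] *ᵥ v)) := by
    have h3 : TST_m t ℓ none = (TST_w t).val * !![((ℓ : ℕ) : Oz t), 0; 0, 1] := TST_none t ℓ
    unfold TST_T
    rw [h3, h1, one_smul, Matrix.adjugate_fin_two_of]
    simp
  have h4 : ∀ x : Fin ℓ × Fin ℓ, TST_T f φ (TST_m t ℓ (some x)) u v =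
      act f !![((ℓ : ℕ) : Oz t), - rep t x; 0, 1]
        (φ (!![1, rep t x; 0, ((ℓ : ℕ) : Oz t)] *ᵥ u)
          (!![1, rep t x; 0, ((ℓ : ℕ) : Oz t)] *ᵥ v)) := by
    intro x
    unfold TST_T
    rw [TST_some, Matrix.adjugate_fin_two_of]
    simp
  have h5 : opT f ℓ φ u v = (∑ x : Fin ℓ × Fin ℓ, act f !![((ℓ : ℕ) : Oz t), - rep t x; 0, 1]
      (φ (!![1, rep t x; 0, ((ℓ : ℕ) : Oz t)] *ᵥ u)
        (!![1, rep t x; 0, ((ℓ : ℕ) : Oz t)] *ᵥ v))) +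
      act f !![1, 0; 0, ((ℓ : ℕ) : Oz t)]
        (φ (!![((ℓ : ℕ) : Oz t), 0; 0, 1] *ᵥ u) (!![((ℓ : ℕ) : Oz t), 0; 0, 1] *ᵥ v)) := rfl
  rw [h5, h2, Finset.sum_congr rfl fun x _ => h4 x, add_comm]

theorem TST_bi {A : Type} [CommRing A] (k : ℕ) {ι : Type} (s : Finset ι) (P : ι → Pol A)
    (h : ∀ i ∈ s, BiHom k (P i)) : BiHom k (∑ i ∈ s, P i) := by
  constructor
  · exact Submodule.sum_mem (weightedHomogeneousSubmodule A (![1, 1, 0, 0] : Fin 4 → ℕ) k)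
      fun i hi => (h i hi).1
  · exact Submodule.sum_mem (weightedHomogeneousSubmodule A (![0, 0, 1, 1] : Fin 4 → ℕ) k)
      fun i hi => (h i hi).2

theorem TST (hTR1 : TR1_stmt) (hTR2 : TR2_stmt) (hPRM : PRM_stmt) (hCNJ : CNJ_stmt)
    (hACH : ACH_stmt) : TST_stmt := by
  intro t ht ℓ hℓ hin A _ f k φ hφ
  have hℓ0 : ℓ ≠ 0 := hℓ.ne_zero
  have hs : ∀ u v, opT f ℓ φ u v = ∑ i : Option (Fin ℓ × Fin ℓ), TST_T f φ (TST_m t ℓ i) u v :=
    TST_sum hTR1 t ht ℓ f k φ hφ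
  refine ⟨?_, ?_, ?_, ?_, ?_, ?_, ?_⟩
  · intro v
    rw [hs]
    refine Finset.sum_eq_zero fun i _ => ?_
    unfold TST_T
    rw [Matrix.mulVec_zero, hφ.zero_left, map_zero]
  · intro u
    rw [hs]
    refine Finset.sum_eq_zero fun i _ => ?_
    unfold TST_T
    rw [Matrix.mulVec_zero, hφ.zero_right, map_zero]
  · intro u v w hu hv hw
    rw [hs, hs, hs, ← Finset.sum_add_distrib]
    refine Finset.sum_congr rfl fun i _ => ?_
    unfold TST_T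
    rw [← map_add, hφ.add _ _ _ (TST_ne t hℓ0 i u hu) (TST_ne t hℓ0 i v hv)
      (TST_ne t hℓ0 i w hw)]
  · intro c u v hc
    rw [hs, hs]
    refine Finset.sum_congr rfl fun i _ => ?_
    unfold TST_T
    rw [Matrix.mulVec_smul, hφ.smul_left c _ _ hc]
  · intro c u v hc
    rw [hs, hs]
    refine Finset.sum_congr rfl fun i _ => ?_
    unfold TST_T
    rw [Matrix.mulVec_smul, hφ.smul_right c _ _ hc]
  · intro u v
    rw [hs]
    refine TST_bi k _ _ fun i _ => ?_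
    exact hACH f _ k _ (hφ.hom _ _)
  · intro γ u v _
    rw [one_smul, hs, hs, map_sum]
    obtain ⟨σ, hσ⟩ := hPRM t ℓ hℓ hin γ
    rw [← Equiv.sum_comp σ fun i => act f γ.val (TST_T f φ (TST_m t ℓ i) u v)]
    refine Finset.sum_congr rfl fun i _ => ?_
    obtain ⟨h, hh, hg⟩ := hσ i
    obtain ⟨h', h1, -, -⟩ := hCNJ t ℓ hℓ0 h hh
    have e1 : TST_m t ℓ i * γ.val = h'.val * TST_m t ℓ (σ i) := by
      unfold TST_m
      rw [Matrix.mul_assoc, hg, ← Matrix.mul_assoc, h1, Matrix.mul_assoc]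
    have e2 := hTR2 t ht f k (φ (TST_m t ℓ i *ᵥ (γ.val *ᵥ u)) (TST_m t ℓ i *ᵥ (γ.val *ᵥ v)))
      (hφ.hom _ _) (TST_m t ℓ i) γ
    have e3 := hTR1 t ht f k 1 (fun _ => 1) φ hφ (TST_m t ℓ (σ i)) h'
      (by rw [Nat.cast_one]; exact one_dvd _) u v
    rw [one_smul] at e3
    unfold TST_T
    rw [e2, Matrix.mulVec_mulVec, Matrix.mulVec_mulVec, e1, e3]

end Pool.Agent.OD
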